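import Mathlib
import Pool.Agent.Q86.CurveSocle

set_option autoImplicit false

universe u

namespace Pool.Agent.Results.MP_4f2529_ag.RealisingType

open Pool.Agent.Q86.Curve

theorem ncard_top : (PF (⊤ : AddSubmonoid ℕ)).ncard ≤ 1 := by
  have h : PF (⊤ : AddSubmonoid ℕ) ⊆ {-1} := by
    intro x hx
    have h0 : x < 0 := by
      by_contra h
      obtain ⟨n, rfl⟩ := Int.eq_ofNat_of_zero_le (not_lt.1 h)
      exact hx.1 ⟨n, trivial, rfl⟩
    obtain ⟨n, -, hn⟩ := hx.2 1 trivial one_ne_zero
    have : x = -1 := by push_cast at hn; omega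
    exact this
  calc _ ≤ ({-1} : Set ℤ).ncard := Set.ncard_le_ncard h (Set.finite_singleton _)
    _ = 1 := Set.ncard_singleton _

/-- **Positive answer.**  Every numerical semigroup `T` of type `t > 1` is the semigroup of a
projective monomial curve `C` whose homogeneous coordinate ring is Cohen–Macaulay of type `t`
(over every field; the curve does not depend on the field). -/
theorem result (T : AddSubmonoid ℕ) (hfin : ((T : Set ℕ)ᶜ).Finite)
    (ht : 1 < (PF T).ncard) :
    ∃ C : MonCurve, AddSubmonoid.closure (C.A : Set ℕ) = T ∧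
      ∀ (k : Type u) [Field k], C.IsACM k ∧ C.cmType k = (PF T).ncard := by
  have hT : T ≠ ⊤ := by
    rintro rfl
    have := ncard_top
    omega
  obtain ⟨D⟩ := exists_dat T hfin hT
  exact ⟨D.curve, D.closure_AA, fun k _ => ⟨D.isACM k, D.cmType_eq k⟩⟩

end Pool.Agent.Results.MP_4f2529_ag.RealisingType
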